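import Pool.Agent.Helper64.DT.Stmts

/-! Diamond-free circle graphs (MP_866009_co): module CPB. -/

set_option autoImplicit false

namespace Pool.Agent.Helper64.DT

open Pool.Agent.Helper64.CT
open Pool.Agent.Helper64.HG (Ovl Model Circ IC HellyCircle ChordModel)

theorem cpb_one (a b c d e f : Bool) (h1 : c ≠ a) (h2 : d ≠ b)
    (h3 : xor (xor e f) (xor c d) = true) : a = e ∨ b = f := by
  revert h1 h2 h3
  cases a <;> cases b <;> cases c <;> cases d <;> cases e <;> cases f <;> decide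

theorem cpb_two (zy yz zy' y'z yy' y'y pz py py' : Bool)
    (h1 : xor (xor zy yz) (xor pz py) = true) (h2 : xor (xor zy' y'z) (xor pz py') = true)
    (h3 : xor (xor yy' y'y) (xor py py') = true) (h4 : yz ≠ yy') (h5 : y'z ≠ y'y) :
    zy ≠ zy' := by
  revert h1 h2 h3 h4 h5
  cases zy <;> cases yz <;> cases zy' <;> cases y'z <;> cases yy' <;> cases y'y <;>
    cases pz <;> cases py <;> cases py' <;> decide

theorem cpb_ins {V : Type} (G : SimpleGraph V) (b : V → V → Bool) (T : Set V)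
    (l r : V → ℝ) (w : V → Bool) (h1 : ST_GB2) (hM : MOn G T l r) (hR : RB T l r w b)
    {y p y' : V} (hy : y ∈ T) (hp : p ∈ T) (hy' : y' ∈ T) (hpy : p ∈ Far G y)
    (hy'y : y' ∈ Far G y) (h : b y p ≠ b y y') : ¬ (Ins l r y p ↔ Ins l r y y') := by
  intro hI
  apply h
  rw [hR y hy p hp hpy.1, hR y hy y' hy' hy'y.1]
  have e1 := (h1 V G T l r w hM).1 y hy p hp hpy
  have e2 := (h1 V G T l r w hM).1 y hy y' hy' hy'y
  unfold bm
  by_cases h0 : Ins l r y y'
  · rw [if_pos (e1.2 (hI.2 h0)), if_pos (e2.2 h0)]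
  · rw [if_neg (fun h' => h0 (hI.1 (e1.1 h'))), if_neg (fun h' => h0 (e2.1 h'))]

theorem st_CPB (h1 : ST_GB2) (h2 : ST_GE2) : ST_CPB := by
  intro V G b T z l r w _ hb hz hM hR ⟨p, hp, hzp⟩ y hy y' hy' hyy'
  have hne : y' ≠ y := hyy'.1
  have hnadj : ¬ G.Adj y y' := hyy'.2
  have hzy : z ≠ y := fun e => hz (e ▸ hy)
  have hzy' : z ≠ y' := fun e => hz (e ▸ hy')
  have hyfar : y ∈ Far G y' := ⟨hne.symm, fun h => hnadj h.symm⟩
  by_cases a1 : G.Adj z y
  · by_cases a2 : G.Adj z y'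
    · exact cpb_one _ _ _ _ _ _ (hb.n1 z y a1) (hb.n1 z y' a2)
        (hb.n3 z y y' a1 a2 hne.symm hnadj)
    · right
      exact hb.n2 y' z y ⟨hzy', fun h => a2 h.symm⟩ hyfar a1
  · by_cases a2 : G.Adj z y'
    · left
      exact hb.n2 y z y' ⟨hzy, fun h => a1 h.symm⟩ hyy' a2
    · have hzf : z ∈ Far G y := ⟨hzy, fun h => a1 h.symm⟩
      have hzf' : z ∈ Far G y' := ⟨hzy', fun h => a2 h.symm⟩
      have hpy : p ≠ y := fun e => a1 (e ▸ hzp)
      have hpy' : p ≠ y' := fun e => a2 (e ▸ hzp)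
      by_contra hcon
      push Not at hcon
      obtain ⟨c1, c2⟩ := hcon
      by_cases b1 : G.Adj y p
      · by_cases b2 : G.Adj y' p
        · have k1 := hb.n3 p z y hzp.symm b1.symm hzy a1
          have k2 := hb.n3 p z y' hzp.symm b2.symm hzy' a2
          have k3 := hb.n3 p y y' b1.symm b2.symm hne.symm hnadj
          have k4 := cpb_two _ _ _ _ _ _ _ _ _ k1 k2 k3 c1 c2
          exact hb.n4 p z y y' hzp.symm b1.symm b2.symm hzy hzy' hne.symm a1 a2 hnadj
            ⟨k4, c1, c2⟩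
        · have hpf' : p ∈ Far G y' := ⟨hpy', b2⟩
          apply c2
          rw [hb.n2 y' z p hzf' hpf' hzp, hb.n2 y' p y hpf' hyfar b1.symm]
      · have hpf : p ∈ Far G y := ⟨hpy, b1⟩
        by_cases b2 : G.Adj y' p
        · apply c1
          rw [hb.n2 y z p hzf hpf hzp, hb.n2 y p y' hpf hyy' b2.symm]
        · have hpf' : p ∈ Far G y' := ⟨hpy', b2⟩
          rw [hb.n2 y z p hzf hpf hzp] at c1
          rw [hb.n2 y' z p hzf' hpf' hzp] at c2
          have i1 := cpb_ins G b T l r w h1 hM hR hy hp hy' hpf hyy' c1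
          have i2 := cpb_ins G b T l r w h1 hM hR hy' hp hy hpf' hyfar c2
          exact h2 V G T l r hM p hp y hy y' hy' hpf hpf' hyfar ⟨i1, i2⟩

end Pool.Agent.Helper64.DT
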